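import Mathlib

/-!
Algebraic entropy of amenable group actions does not increase when passing from a subgroup
to the whole group.
-/

set_option autoImplicit false

namespace Pool.Agent.Results.MP_df8e9b_al.Restriction

open Filter Topology

/-! ### A generalised Hölder inequality for finite sums -/

theorem holder_sum {X J : Type*} (sX : Finset X) (sJ : Finset J) (b : J → X → ℝ)
    (hb : ∀ j x, 0 ≤ b j x) (hJ : sJ.Nonempty) :
    ∑ x ∈ sX, ∏ j ∈ sJ, (b j x) ^ (1 / (sJ.card : ℝ)) ≤
      ∏ j ∈ sJ, (∑ x ∈ sX, b j x) ^ (1 / (sJ.card : ℝ)) := by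
  classical
  have hcard : 0 < (sJ.card : ℝ) := by exact_mod_cast hJ.card_pos
  have hw : 0 < 1 / (sJ.card : ℝ) := by positivity
  set w : ℝ := 1 / (sJ.card : ℝ) with hwdef
  by_cases hz : ∃ j ∈ sJ, ∑ x ∈ sX, b j x = 0
  · obtain ⟨j, hj, hj0⟩ := hz
    have h0 : ∀ x ∈ sX, b j x = 0 :=
      (Finset.sum_eq_zero_iff_of_nonneg (fun x _ => hb j x)).1 hj0
    have hL : ∑ x ∈ sX, ∏ j ∈ sJ, (b j x) ^ w = 0 := by
      apply Finset.sum_eq_zero
      intro x hx
      apply Finset.prod_eq_zero hj
      rw [h0 x hx, Real.zero_rpow hw.ne']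
    rw [hL]
    apply Finset.prod_nonneg
    intro j _
    exact Real.rpow_nonneg (Finset.sum_nonneg fun x _ => hb j x) _
  · push Not at hz
    have hpos : ∀ j ∈ sJ, 0 < ∑ x ∈ sX, b j x := fun j hj =>
      lt_of_le_of_ne (Finset.sum_nonneg fun x _ => hb j x) (Ne.symm (hz j hj))
    have hterm : ∀ x ∈ sX, ∏ j ∈ sJ, (b j x) ^ w ≤
        (∏ j ∈ sJ, (∑ x ∈ sX, b j x) ^ w) * ∑ j ∈ sJ, w * (b j x / ∑ x ∈ sX, b j x) := by
      intro x _
      have h1 : ∏ j ∈ sJ, (b j x) ^ w =
          (∏ j ∈ sJ, (∑ x ∈ sX, b j x) ^ w) * ∏ j ∈ sJ, (b j x / ∑ x ∈ sX, b j x) ^ w := by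
        rw [← Finset.prod_mul_distrib]
        refine Finset.prod_congr rfl ?_
        intro j hj
        rw [← Real.mul_rpow (hpos j hj).le (div_nonneg (hb j x) (hpos j hj).le),
          mul_div_cancel₀ _ (hpos j hj).ne']
      rw [h1]
      apply mul_le_mul_of_nonneg_left _ (Finset.prod_nonneg fun j hj =>
        Real.rpow_nonneg (hpos j hj).le _)
      apply Real.geom_mean_le_arith_mean_weighted sJ (fun _ => w)
        (fun j => b j x / ∑ x ∈ sX, b j x)
      · intro j _; exact hw.le
      · rw [Finset.sum_const, nsmul_eq_mul, hwdef]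
        field_simp
      · intro j hj
        exact div_nonneg (hb j x) (hpos j hj).le
    calc ∑ x ∈ sX, ∏ j ∈ sJ, (b j x) ^ w
        ≤ ∑ x ∈ sX, (∏ j ∈ sJ, (∑ x ∈ sX, b j x) ^ w) *
            ∑ j ∈ sJ, w * (b j x / ∑ x ∈ sX, b j x) := Finset.sum_le_sum hterm
      _ = (∏ j ∈ sJ, (∑ x ∈ sX, b j x) ^ w) *
            ∑ j ∈ sJ, w * ((∑ x ∈ sX, b j x) / ∑ x ∈ sX, b j x) := by
          rw [← Finset.mul_sum, Finset.sum_comm]
          congr 1
          refine Finset.sum_congr rfl ?_
          intro j _
          rw [← Finset.mul_sum, Finset.sum_div]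
      _ = ∏ j ∈ sJ, (∑ x ∈ sX, b j x) ^ w := by
          have : ∑ j ∈ sJ, w * ((∑ x ∈ sX, b j x) / ∑ x ∈ sX, b j x) = 1 := by
            rw [Finset.sum_congr rfl (fun j hj => by
              rw [div_self (hpos j hj).ne', mul_one])]
            rw [Finset.sum_const, nsmul_eq_mul, hwdef]
            field_simp
          rw [this, mul_one]

/-! ### Shearer's inequality for finite sets of functions -/

section Shearer

variable {ι α : Type*} [DecidableEq ι] [DecidableEq α]

/-- restriction of a function to a finite set of indices -/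
def cut (s : Finset ι) (y : ι → α) : ι → Option α := fun i => if i ∈ s then some (y i) else none

omit [DecidableEq α] in
theorem cut_eq_iff (s : Finset ι) (y z : ι → α) : cut s y = cut s z ↔ ∀ i ∈ s, y i = z i := by
  constructor
  · intro h i hi
    have := congrFun h i
    simpa [cut, hi] using this
  · intro h
    funext i
    by_cases hi : i ∈ s
    · simp [cut, hi, h i hi]
    · simp [cut, hi]

/-- the restrictions to `s` of the members of `S` -/
noncomputable def cutImage (S : Finset (ι → α)) (s : Finset ι) : Finset (ι → Option α) := by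
  classical exact S.image (cut s)

omit [DecidableEq α] in
theorem mem_cutImage {S : Finset (ι → α)} {s : Finset ι} {c : ι → Option α} :
    c ∈ cutImage S s ↔ ∃ y ∈ S, cut s y = c := by
  classical
  unfold cutImage
  rw [Finset.mem_image]

/-- number of different restrictions to `s` of the members of `S` -/
noncomputable def cnt (S : Finset (ι → α)) (s : Finset ι) : ℕ := (cutImage S s).card

omit [DecidableEq α] in
theorem cnt_mono {S S' : Finset (ι → α)} (h : S ⊆ S') (s : Finset ι) : cnt S s ≤ cnt S' s := by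
  classical
  unfold cnt cutImage
  exact Finset.card_le_card (Finset.image_subset_image h)

theorem cnt_fiber (S : Finset (ι → α)) (t : Finset ι) (a : ι) (ha : a ∈ t) :
    cnt S t = ∑ x ∈ S.image (fun y => y a), cnt (S.filter (fun y => y a = x)) (t.erase a) := by
  classical
  unfold cnt cutImage
  have hmaps : ∀ c ∈ S.image (cut t), (c a) ∈ (S.image (fun y => y a)).image some := by
    intro c hc
    rw [Finset.mem_image] at hc
    obtain ⟨y, hy, rfl⟩ := hc
    rw [Finset.mem_image]
    refine ⟨y a, Finset.mem_image_of_mem _ hy, ?_⟩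
    simp [cut, ha]
  rw [Finset.card_eq_sum_card_fiberwise hmaps]
  rw [Finset.sum_image (by intro x _ y _ h; exact Option.some.inj h)]
  refine Finset.sum_congr rfl ?_
  intro x _
  -- bijection between the fibre and the image
  symm
  apply Finset.card_bij (fun (c : ι → Option α) _ => fun i => if i = a then some x else c i)
  · intro c hc
    rw [Finset.mem_image] at hc
    obtain ⟨y, hy, rfl⟩ := hc
    rw [Finset.mem_filter] at hy
    rw [Finset.mem_filter, Finset.mem_image]
    refine ⟨⟨y, hy.1, ?_⟩, by simp⟩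
    funext i
    by_cases hia : i = a
    · subst hia; simp [cut, ha, hy.2]
    · simp [cut, hia]
  · intro c hc c' hc' h
    rw [Finset.mem_image] at hc hc'
    obtain ⟨y, hy, rfl⟩ := hc
    obtain ⟨y', hy', rfl⟩ := hc'
    funext i
    have := congrFun h i
    by_cases hia : i = a
    · subst hia; simp [cut]
    · simpa [hia] using this
  · intro c hc
    rw [Finset.mem_filter, Finset.mem_image] at hc
    obtain ⟨⟨y, hy, rfl⟩, h2⟩ := hc
    have h3 : y a = x := by simpa [cut, ha] using h2
    refine ⟨cut (t.erase a) y, ?_, ?_⟩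
    · apply Finset.mem_image_of_mem
      rw [Finset.mem_filter]
      exact ⟨hy, h3⟩
    · funext i
      by_cases hia : i = a
      · subst hia; simp [cut, ha, h3]
      · simp [cut, hia]

theorem shearer {J : Type*} (s : Finset ι) : ∀ (S : Finset (ι → α)) (sJ : Finset J)
    (t : J → Finset ι) (k : ℕ), 0 < k → (∀ j ∈ sJ, t j ⊆ s) →
    (∀ i ∈ s, (sJ.filter (fun j => i ∈ t j)).card = k) →
    ((cnt S s : ℕ) : ℝ) ^ k ≤ ∏ j ∈ sJ, ((cnt S (t j) : ℕ) : ℝ) := by
  classical
  induction s using Finset.induction_on with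
  | empty =>
    intro S sJ t k hk hsub _
    have ht : ∀ j ∈ sJ, t j = ∅ := fun j hj => Finset.subset_empty.1 (hsub j hj)
    rcases S.eq_empty_or_nonempty with rfl | hS
    · have : cnt (∅ : Finset (ι → α)) ∅ = 0 := by simp [cnt, cutImage]
      rw [this]
      simp only [Nat.cast_zero, zero_pow hk.ne']
      exact Finset.prod_nonneg fun j _ => Nat.cast_nonneg _
    · have h1 : cnt S ∅ = 1 := by
        unfold cnt cutImage
        rw [Finset.card_eq_one]
        obtain ⟨y, hy⟩ := hS
        refine ⟨cut ∅ y, ?_⟩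
        ext c
        rw [Finset.mem_image, Finset.mem_singleton]
        constructor
        · rintro ⟨z, _, rfl⟩
          rw [cut_eq_iff]; simp
        · rintro rfl
          exact ⟨y, hy, rfl⟩
      rw [h1]
      rw [Finset.prod_congr rfl (fun j hj => by rw [ht j hj, h1])]
      simp
  | insert a s' ha ih =>
    intro S sJ t k hk hsub hcov
    set sJ1 := sJ.filter (fun j => a ∈ t j) with hsJ1
    set sJ2 := sJ.filter (fun j => ¬ a ∈ t j) with hsJ2
    have hc1 : sJ1.card = k := hcov a (Finset.mem_insert_self _ _)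
    have hne : sJ1.Nonempty := by
      rw [← Finset.card_pos, hc1]; exact hk
    set C : ℝ := ∏ j ∈ sJ2, ((cnt S (t j) : ℕ) : ℝ) with hC
    have hC0 : 0 ≤ C := Finset.prod_nonneg fun j _ => Nat.cast_nonneg _
    set b : J → α → ℝ := fun j x => ((cnt (S.filter (fun y => y a = x)) ((t j).erase a) : ℕ) : ℝ)
      with hb
    have hb0 : ∀ j x, 0 ≤ b j x := fun j x => Nat.cast_nonneg _
    set V := S.image (fun y => y a) with hV
    have hkR : (k : ℝ) ≠ 0 := by exact_mod_cast hk.ne'
    -- the slice estimate
    have hslice : ∀ x, ((cnt (S.filter (fun y => y a = x)) s' : ℕ) : ℝ) ≤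
        C ^ (1 / (k : ℝ)) * ∏ j ∈ sJ1, (b j x) ^ (1 / (k : ℝ)) := by
      intro x
      have hih := ih (S.filter (fun y => y a = x)) sJ (fun j => (t j).erase a) k hk (by
        intro j hj i hi
        rw [Finset.mem_erase] at hi
        have := hsub j hj hi.2
        rw [Finset.mem_insert] at this
        exact this.resolve_left hi.1) (by
        intro i hi
        have hia : i ≠ a := by rintro rfl; exact ha hi
        have := hcov i (Finset.mem_insert_of_mem hi)
        rw [← this]
        congr 1
        apply Finset.filter_congr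
        intro j _
        simp [hia])
      have hprod : ∏ j ∈ sJ, ((cnt (S.filter (fun y => y a = x)) ((t j).erase a) : ℕ) : ℝ) ≤
          C * ∏ j ∈ sJ1, b j x := by
        rw [← Finset.prod_filter_mul_prod_filter_not sJ (fun j => a ∈ t j), mul_comm]
        apply mul_le_mul_of_nonneg_right _ (Finset.prod_nonneg fun j _ => hb0 j x)
        rw [hC]
        apply Finset.prod_le_prod
        · intro j _; exact Nat.cast_nonneg _
        · intro j hj
          rw [Finset.mem_filter] at hj
          rw [Finset.erase_eq_of_notMem hj.2]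
          exact_mod_cast cnt_mono (Finset.filter_subset _ _) _
      have h1 := hih.trans hprod
      have h2 : (((cnt (S.filter (fun y => y a = x)) s' : ℕ) : ℝ) ^ k) ^ (1 / (k : ℝ)) ≤
          (C * ∏ j ∈ sJ1, b j x) ^ (1 / (k : ℝ)) :=
        Real.rpow_le_rpow (by positivity) h1 (by positivity)
      rw [← Real.rpow_natCast, ← Real.rpow_mul (Nat.cast_nonneg _), mul_one_div_cancel hkR,
        Real.rpow_one] at h2
      rw [Real.mul_rpow hC0 (Finset.prod_nonneg fun j _ => hb0 j x),
        ← Real.finsetProd_rpow _ _ (fun j _ => hb0 j x)] at h2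
      exact h2
    -- sum over slices
    have hsum : ((cnt S (insert a s') : ℕ) : ℝ) ≤
        C ^ (1 / (k : ℝ)) * ∏ j ∈ sJ1, (((cnt S (t j) : ℕ) : ℝ)) ^ (1 / (k : ℝ)) := by
      rw [cnt_fiber S (insert a s') a (Finset.mem_insert_self _ _), Nat.cast_sum]
      rw [Finset.erase_insert ha]
      calc ∑ x ∈ V, ((cnt (S.filter (fun y => y a = x)) s' : ℕ) : ℝ)
          ≤ ∑ x ∈ V, C ^ (1 / (k : ℝ)) * ∏ j ∈ sJ1, (b j x) ^ (1 / (k : ℝ)) :=
            Finset.sum_le_sum fun x _ => hslice x
        _ = C ^ (1 / (k : ℝ)) * ∑ x ∈ V, ∏ j ∈ sJ1, (b j x) ^ (1 / (k : ℝ)) := by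
            rw [Finset.mul_sum]
        _ ≤ C ^ (1 / (k : ℝ)) * ∏ j ∈ sJ1, (∑ x ∈ V, b j x) ^ (1 / (k : ℝ)) := by
            apply mul_le_mul_of_nonneg_left _ (Real.rpow_nonneg hC0 _)
            have := holder_sum V sJ1 b hb0 hne
            rw [hc1] at this
            exact this
        _ = C ^ (1 / (k : ℝ)) * ∏ j ∈ sJ1, (((cnt S (t j) : ℕ) : ℝ)) ^ (1 / (k : ℝ)) := by
            congr 1
            refine Finset.prod_congr rfl ?_
            intro j hj
            rw [hsJ1, Finset.mem_filter] at hj
            rw [cnt_fiber S (t j) a hj.2, Nat.cast_sum]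
    have hfin := pow_le_pow_left₀ (Nat.cast_nonneg _) hsum k
    refine hfin.trans (le_of_eq ?_)
    rw [mul_pow, ← Finset.prod_pow]
    have hk' : ∀ z : ℝ, 0 ≤ z → (z ^ (1 / (k : ℝ))) ^ k = z := by
      intro z hz
      rw [← Real.rpow_natCast, ← Real.rpow_mul hz, one_div_mul_cancel hkR, Real.rpow_one]
    rw [hk' C hC0, Finset.prod_congr rfl (fun j _ => hk' _ (Nat.cast_nonneg _)), hC, mul_comm]
    rw [← Finset.prod_filter_mul_prod_filter_not sJ (fun j => a ∈ t j)]

end Shearer

/-! ### Shearer's inequality for sumsets -/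

section Sumset

variable {ι A : Type*} [Fintype ι] [DecidableEq ι] [AddCommGroup A] [DecidableEq A]

/-- cardinality of the partial sumset over `t` -/
noncomputable def num (X : ι → Finset A) (t : Finset ι) : ℕ :=
  ((Fintype.piFinset X).image (fun y => ∑ i ∈ t, y i)).card

theorem sumset_shearer {J : Type*} (X : ι → Finset A) (sJ : Finset J) (t : J → Finset ι) (k : ℕ)
    (hk : 0 < k) (hcov : ∀ i, (sJ.filter (fun j => i ∈ t j)).card = k) :
    ((num X Finset.univ : ℕ) : ℝ) ^ k ≤ ∏ j ∈ sJ, ((num X (t j) : ℕ) : ℝ) := by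
  classical
  -- an injective coding of the pairs (i, a)
  obtain ⟨code, hcode⟩ : ∃ code : ι × A → ℕ,
      Set.InjOn code (↑(Finset.univ.biUnion (fun i => (X i).image (fun a => (i, a)))) : Set (ι × A)) :=
    Set.countable_iff_exists_injOn.1 (Finset.countable_toSet _)
  have hcode' : ∀ i j a b, a ∈ X i → b ∈ X j → code (i, a) = code (j, b) → i = j ∧ a = b := by
    intro i j a b ha hb h
    have := @hcode (i, a) (by simpa using ha) (j, b) (by simpa using hb) h
    simpa using this
  set W : Finset ι → (ι → A) → ℕ := fun s y => ∑ i ∈ s, 2 ^ code (i, y i) with hW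
  have hWinj : ∀ s : Finset ι, ∀ y ∈ Fintype.piFinset X, ∀ z ∈ Fintype.piFinset X,
      W s y = W s z → ∀ i ∈ s, y i = z i := by
    intro s y hy z hz h i hi
    rw [Fintype.mem_piFinset] at hy hz
    have hform : ∀ y : ι → A, (∀ i, y i ∈ X i) →
        W s y = ∑ n ∈ s.image (fun i => code (i, y i)), 2 ^ n := by
      intro y hy
      rw [Finset.sum_image]
      intro i _ j _ hij
      exact (hcode' i j _ _ (hy i) (hy j) hij).1
    rw [hform y hy, hform z hz] at h
    have himg := Finset.geomSum_injective (le_refl 2) h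
    have hmem : code (i, y i) ∈ s.image (fun i => code (i, z i)) := by
      rw [← himg]; exact Finset.mem_image_of_mem _ hi
    rw [Finset.mem_image] at hmem
    obtain ⟨j, _, hj⟩ := hmem
    obtain ⟨h1, h2⟩ := hcode' j i _ _ (hz j) (hy i) hj
    subst h1
    exact h2.symm
  -- the set of minimal representations
  set S : Finset (ι → A) := (Fintype.piFinset X).filter (fun y =>
    ∀ z ∈ Fintype.piFinset X, ∑ i, z i = ∑ i, y i → W Finset.univ y ≤ W Finset.univ z) with hS
  have hSX : ∀ y ∈ S, y ∈ Fintype.piFinset X := fun y hy => (Finset.mem_filter.1 hy).1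
  have hmin : ∀ y ∈ S, ∀ z ∈ S, ∀ s : Finset ι, ∑ i ∈ s, y i = ∑ i ∈ s, z i →
      W s y ≤ W s z := by
    intro y hy z hz s hs
    have hyX := hSX y hy
    have hzX := hSX z hz
    rw [Fintype.mem_piFinset] at hyX hzX
    have h1 := (Finset.mem_filter.1 hy).2 (fun i => if i ∈ s then z i else y i) (by
      rw [Fintype.mem_piFinset]
      intro i
      by_cases hi : i ∈ s
      · simp [hi, hzX i]
      · simp [hi, hyX i]) (by
      rw [← Finset.sum_add_sum_compl s, ← Finset.sum_add_sum_compl s]
      congr 1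
      · rw [hs]
        refine Finset.sum_congr rfl ?_
        intro i hi; simp [hi]
      · refine Finset.sum_congr rfl ?_
        intro i hi
        rw [Finset.mem_compl] at hi
        simp [hi])
    rw [hW] at h1
    simp only at h1
    rw [← Finset.sum_add_sum_compl s, ← Finset.sum_add_sum_compl s (fun i => 2 ^ code (i, _))] at h1
    have h2 : ∑ i ∈ sᶜ, 2 ^ code (i, if i ∈ s then z i else y i) = ∑ i ∈ sᶜ, 2 ^ code (i, y i) := by
      refine Finset.sum_congr rfl ?_
      intro i hi
      rw [Finset.mem_compl] at hi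
      simp [hi]
    have h3 : ∑ i ∈ s, 2 ^ code (i, if i ∈ s then z i else y i) = ∑ i ∈ s, 2 ^ code (i, z i) := by
      refine Finset.sum_congr rfl ?_
      intro i hi; simp [hi]
    rw [h2, h3] at h1
    exact Nat.le_of_add_le_add_right h1
  have hinj : ∀ y ∈ S, ∀ z ∈ S, ∀ s : Finset ι, ∑ i ∈ s, y i = ∑ i ∈ s, z i →
      ∀ i ∈ s, y i = z i := by
    intro y hy z hz s hs
    exact hWinj s y (hSX y hy) z (hSX z hz)
      (le_antisymm (hmin y hy z hz s hs) (hmin z hz y hy s hs.symm))
  -- counting
  have hcnt : ∀ s : Finset ι, cnt S s ≤ num X s := by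
    intro s
    unfold num
    have : cnt S s = (S.image (fun y => ∑ i ∈ s, y i)).card := by
      unfold cnt
      apply le_antisymm
      · -- choose representatives
        apply Finset.card_le_card_of_surjOn
          (fun a => if h : ∃ y ∈ S, ∑ i ∈ s, y i = a then cut s h.choose else cut s (fun _ => 0))
        intro c hc
        rw [Finset.mem_coe, mem_cutImage] at hc
        obtain ⟨y, hy, rfl⟩ := hc
        refine ⟨∑ i ∈ s, y i, ?_, ?_⟩
        · rw [Finset.mem_coe]
          exact Finset.mem_image_of_mem _ hy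
        · have h : ∃ z ∈ S, ∑ i ∈ s, z i = ∑ i ∈ s, y i := ⟨y, hy, rfl⟩
          simp only [h, dif_pos]
          rw [cut_eq_iff]
          exact hinj _ h.choose_spec.1 y hy s h.choose_spec.2
      · apply Finset.card_le_card_of_surjOn
          (fun c => ∑ i ∈ s, (c i).getD 0)
        intro a ha
        rw [Finset.mem_coe, Finset.mem_image] at ha
        obtain ⟨y, hy, rfl⟩ := ha
        refine ⟨cut s y, ?_, ?_⟩
        · rw [Finset.mem_coe, mem_cutImage]
          exact ⟨y, hy, rfl⟩
        · refine Finset.sum_congr rfl ?_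
          intro i hi
          simp [cut, hi]
    rw [this]
    exact Finset.card_le_card (Finset.image_subset_image (Finset.filter_subset _ _))
  have htop : num X Finset.univ ≤ cnt S Finset.univ := by
    unfold num cnt
    apply Finset.card_le_card_of_surjOn (fun c => ∑ i, (c i).getD 0)
    intro a ha
    rw [Finset.mem_coe, Finset.mem_image] at ha
    obtain ⟨y, hy, rfl⟩ := ha
    obtain ⟨z, hz, hzmin⟩ := Finset.exists_min_image
      ((Fintype.piFinset X).filter (fun z => ∑ i, z i = ∑ i, y i)) (W Finset.univ)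
      ⟨y, by simp only [Finset.mem_filter]; exact ⟨hy, trivial⟩⟩
    rw [Finset.mem_filter] at hz
    refine ⟨cut Finset.univ z, ?_, ?_⟩
    · rw [Finset.mem_coe, mem_cutImage]
      refine ⟨z, ?_, rfl⟩
      rw [hS, Finset.mem_filter]
      refine ⟨hz.1, ?_⟩
      intro w hw hws
      apply hzmin
      rw [Finset.mem_filter]
      exact ⟨hw, hws.trans hz.2⟩
    · simp only [cut, Finset.mem_univ, if_true, Option.getD_some]
      exact hz.2
  have hsh := shearer (Finset.univ : Finset ι) S sJ t k hk (fun j _ => Finset.subset_univ _)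
    (fun i _ => hcov i)
  calc ((num X Finset.univ : ℕ) : ℝ) ^ k ≤ ((cnt S Finset.univ : ℕ) : ℝ) ^ k :=
        pow_le_pow_left₀ (Nat.cast_nonneg _) (by exact_mod_cast htop) k
    _ ≤ ∏ j ∈ sJ, ((cnt S (t j) : ℕ) : ℝ) := hsh
    _ ≤ ∏ j ∈ sJ, ((num X (t j) : ℕ) : ℝ) := by
        apply Finset.prod_le_prod
        · intro j _; exact Nat.cast_nonneg _
        · intro j _; exact_mod_cast hcnt (t j)

end Sumset

/-! ### Trajectories, right Følner nets and algebraic entropy -/

section Entropy

variable {G A : Type*} [Group G] [AddCommGroup A] [DistribMulAction G A]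

/-- The trajectory `T_F(α, X) = ∑_{g ∈ F} g • X` (a sumset): the set of all sums
`∑_{g ∈ F} g • x_g` with `x_g ∈ X` for `g ∈ F`. -/
def trajectory (F : Finset G) (X : Set A) : Set A :=
  {a | ∃ x : G → A, (∀ g ∈ F, x g ∈ X) ∧ a = ∑ g ∈ F, g • x g}

/-- A right Følner net of `G`: a net `(F i)` of non-empty finite subsets of `G` with
`|F i * g ∆ F i| / |F i| → 0` for every `g`. -/
structure IsRightFolner {ι : Type*} [Preorder ι] (F : ι → Finset G) : Prop where
  nonempty : ∀ i, (F i).Nonempty
  tendsto : ∀ g : G, Tendsto (fun i =>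
    ((symmDiff ((fun x => x * g) '' (F i : Set G)) (F i : Set G)).ncard : ℝ) / ((F i).card : ℝ))
      atTop (𝓝 0)

/-- `H_alg(α, X)`, the limit of `log |T_{F i}(α, X)| / |F i|` along the net `F`. -/
noncomputable def Halg {ι : Type*} [Preorder ι] (F : ι → Finset G) (X : Set A) : ℝ :=
  limUnder atTop (fun i => Real.log ((trajectory (F i) X).ncard : ℝ) / ((F i).card : ℝ))

variable (A) in
/-- `h_alg(α)`: supremum of `H_alg(α, X)` over the non-empty finite subsets `X` of `A`. -/
noncomputable def halg {ι : Type*} [Preorder ι] (F : ι → Finset G) : EReal :=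
  ⨆ (X : Set A) (_ : X.Finite ∧ X.Nonempty), ((Halg F X : ℝ) : EReal)

variable (A) in
/-- `ent(α)`: supremum of `H_alg(α, B)` over the finite subgroups `B` of `A`. -/
noncomputable def ent {ι : Type*} [Preorder ι] (F : ι → Finset G) : EReal :=
  ⨆ (B : AddSubgroup A) (_ : (B : Set A).Finite), ((Halg F (B : Set A) : ℝ) : EReal)

section Aux

variable [DecidableEq G] [DecidableEq A]

omit [Group G] in
theorem sum_filter_subtype {M : Type*} [AddCommMonoid M] (E F : Finset G) (h : F ⊆ E) (f : G → M) :
    ∑ i ∈ Finset.univ.filter (fun i : E => (i : G) ∈ F), f i = ∑ g ∈ F, f g := by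
  have : (Finset.univ.filter (fun i : E => (i : G) ∈ F)).map (Function.Embedding.subtype _) = F := by
    ext g
    simp only [Finset.mem_map, Finset.mem_filter, Finset.mem_univ, true_and,
      Function.Embedding.subtype_apply, Subtype.exists, exists_and_left, exists_prop,
      exists_eq_right_right]
    exact ⟨fun hg => hg.1, fun hg => ⟨hg, h hg⟩⟩
  conv_rhs => rw [← this]
  rw [Finset.sum_map]
  rfl

theorem trajectory_eq (X : Finset A) (hX : X.Nonempty) (E F : Finset G) (h : F ⊆ E) :
    trajectory F (X : Set A) = ↑((Fintype.piFinset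
      (fun i : E => X.image (fun a => (i : G) • a))).image
        (fun y => ∑ i ∈ Finset.univ.filter (fun i : E => (i : G) ∈ F), y i)) := by
  obtain ⟨x₀, hx₀⟩ := hX
  ext a
  simp only [Finset.coe_image, Set.mem_image, Finset.mem_coe, Fintype.mem_piFinset]
  constructor
  · rintro ⟨x, hx, rfl⟩
    refine ⟨fun i => (i : G) • (if (i : G) ∈ F then x i else x₀), ?_, ?_⟩
    · intro i
      rw [Finset.mem_image]
      refine ⟨_, ?_, rfl⟩
      split_ifs with hi
      · exact hx _ hi
      · exact hx₀
    · rw [sum_filter_subtype E F h (fun g => g • (if g ∈ F then x g else x₀))]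
      refine Finset.sum_congr rfl ?_
      intro g hg
      rw [if_pos hg]
  · rintro ⟨y, hy, rfl⟩
    have hy' : ∀ i : E, ∃ b ∈ X, (i : G) • b = y i := by
      intro i
      have := hy i
      rwa [Finset.mem_image] at this
    choose b hb hby using hy'
    refine ⟨fun g => if hg : g ∈ E then b ⟨g, hg⟩ else x₀, ?_, ?_⟩
    · intro g _
      simp only [Finset.mem_coe]
      split_ifs with hg
      · exact hb _
      · exact hx₀
    · rw [← sum_filter_subtype E F h (fun g => g • (if hg : g ∈ E then b ⟨g, hg⟩ else x₀))]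
      refine Finset.sum_congr rfl ?_
      intro i _
      rw [dif_pos i.2, hby]

theorem ncard_trajectory (X : Finset A) (hX : X.Nonempty) (E F : Finset G) (h : F ⊆ E) :
    (trajectory F (X : Set A)).ncard = num (fun i : E => X.image (fun a => (i : G) • a))
      (Finset.univ.filter (fun i : E => (i : G) ∈ F)) := by
  rw [trajectory_eq X hX E F h, Set.ncard_coe_finset]
  rfl

theorem ncard_trajectory_pos (X : Finset A) (hX : X.Nonempty) (F : Finset G) :
    1 ≤ (trajectory F (X : Set A)).ncard := by
  rw [trajectory_eq X hX F F (Finset.Subset.refl _), Set.ncard_coe_finset, Nat.succ_le_iff,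
    Finset.card_pos]
  apply Finset.Nonempty.image
  rw [Fintype.piFinset_nonempty]
  intro i
  exact hX.image _

theorem ncard_trajectory_le (X : Finset A) (hX : X.Nonempty) (F : Finset G) :
    (trajectory F (X : Set A)).ncard ≤ X.card ^ F.card := by
  rw [trajectory_eq X hX F F (Finset.Subset.refl _), Set.ncard_coe_finset]
  refine Finset.card_image_le.trans ?_
  rw [Fintype.card_piFinset]
  refine (Finset.prod_le_prod' (fun i _ => Finset.card_image_le)).trans ?_
  rw [Finset.prod_const, Finset.card_univ, Fintype.card_coe]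

omit [DecidableEq A] in
theorem trajectory_smul (g : G) (F : Finset G) (X : Set A) :
    trajectory (F.image (fun x => g * x)) X = (fun a => g • a) '' trajectory F X := by
  have hinj : Set.InjOn (fun x : G => g * x) (F : Set G) := fun a _ b _ h => mul_left_cancel h
  ext a
  constructor
  · rintro ⟨x, hx, rfl⟩
    refine ⟨∑ f ∈ F, f • x (g * f), ⟨fun f => x (g * f), ?_, rfl⟩, ?_⟩
    · intro f hf
      exact hx _ (Finset.mem_image_of_mem _ hf)
    · rw [Finset.sum_image hinj]
      simp only [Finset.smul_sum, mul_smul]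
  · rintro ⟨_, ⟨x, hx, rfl⟩, rfl⟩
    refine ⟨fun k => x (g⁻¹ * k), ?_, ?_⟩
    · intro k hk
      rw [Finset.mem_image] at hk
      obtain ⟨f, hf, rfl⟩ := hk
      simpa using hx f hf
    · rw [Finset.sum_image hinj]
      simp only [Finset.smul_sum, mul_smul, inv_mul_cancel_left]

omit [DecidableEq A] in
theorem ncard_trajectory_smul (g : G) (F : Finset G) (X : Set A) :
    (trajectory (F.image (fun x => g * x)) X).ncard = (trajectory F X).ncard := by
  rw [trajectory_smul, Set.ncard_image_of_injective]
  exact MulAction.injective g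

/-- The key estimate behind the infimum rule. -/
theorem key_estimate (X : Finset A) (hX : X.Nonempty) (E F : Finset G) (hE : E.Nonempty)
    (hF : F.Nonempty) :
    Real.log ((trajectory E (X : Set A)).ncard : ℝ) / (E.card : ℝ) ≤
      Real.log ((trajectory F (X : Set A)).ncard : ℝ) / (F.card : ℝ) +
      Real.log (X.card : ℝ) * ∑ f ∈ F, ∑ f' ∈ F,
        ((symmDiff ((fun x => x * (f'⁻¹ * f)) '' (E : Set G)) (E : Set G)).ncard : ℝ) /
          (E.card : ℝ) := by
  have hEc : 0 < (E.card : ℝ) := by exact_mod_cast hE.card_pos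
  have hFc : 0 < (F.card : ℝ) := by exact_mod_cast hF.card_pos
  have hlogX : 0 ≤ Real.log (X.card : ℝ) := Real.log_nonneg (by exact_mod_cast hX.card_pos)
  -- the cover
  set J : Finset G := Finset.image₂ (fun e f => e * f⁻¹) E F with hJ
  set t : G → Finset E := fun j => Finset.univ.filter (fun i : E => j⁻¹ * (i : G) ∈ F) with ht
  set S : G → Finset G := fun j => E.filter (fun e => j⁻¹ * e ∈ F) with hS
  have htS : ∀ j, t j = Finset.univ.filter (fun i : E => (i : G) ∈ S j) := by
    intro j
    rw [ht]
    apply Finset.filter_congr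
    intro i _
    simp [hS, i.2]
  have hcov : ∀ i : E, (J.filter (fun j => i ∈ t j)).card = F.card := by
    intro i
    symm
    apply Finset.card_bij (fun f _ => (i : G) * f⁻¹)
    · intro f hf
      rw [Finset.mem_filter, hJ, Finset.mem_image₂]
      refine ⟨⟨i, i.2, f, hf, rfl⟩, ?_⟩
      simp only [ht, Finset.mem_filter, Finset.mem_univ, true_and, mul_inv_rev, inv_inv,
        inv_mul_cancel_right]
      exact hf
    · intro f _ f' _ h
      exact inv_injective (mul_left_cancel h)
    · intro j hj
      rw [Finset.mem_filter] at hj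
      obtain ⟨_, hj2⟩ := hj
      simp only [ht, Finset.mem_filter, Finset.mem_univ, true_and] at hj2
      exact ⟨j⁻¹ * i, hj2, by simp⟩
  have hsh := sumset_shearer (fun i : E => X.image (fun a => (i : G) • a)) J t F.card hF.card_pos
    hcov
  have hTE : num (fun i : E => X.image (fun a => (i : G) • a)) Finset.univ
      = (trajectory E (X : Set A)).ncard := by
    rw [ncard_trajectory X hX E E (Finset.Subset.refl _)]
    congr 1
    ext i; simp
  have hTS : ∀ j, num (fun i : E => X.image (fun a => (i : G) • a)) (t j)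
      = (trajectory (S j) (X : Set A)).ncard := by
    intro j
    rw [ncard_trajectory X hX E (S j) (Finset.filter_subset _ _), htS]
  rw [hTE] at hsh
  simp only [hTS] at hsh
  have hpos : ∀ F' : Finset G, 0 < ((trajectory F' (X : Set A)).ncard : ℝ) := by
    intro F'
    have := ncard_trajectory_pos X hX F'
    exact_mod_cast this
  have hlog0 : ∀ F' : Finset G, 0 ≤ Real.log ((trajectory F' (X : Set A)).ncard : ℝ) := by
    intro F'
    apply Real.log_nonneg
    have := ncard_trajectory_pos X hX F'
    exact_mod_cast this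
  have hlogle : ∀ F' : Finset G, Real.log ((trajectory F' (X : Set A)).ncard : ℝ) ≤
      F'.card * Real.log (X.card : ℝ) := by
    intro F'
    rw [← Real.log_pow]
    apply Real.log_le_log (hpos F')
    have := ncard_trajectory_le X hX F'
    exact_mod_cast this
  have hlog := Real.log_le_log (pow_pos (hpos E) _) hsh
  rw [Real.log_pow, Real.log_prod (fun j _ => (hpos (S j)).ne')] at hlog
  -- split the index set
  set Jin := J.filter (fun j => F.image (fun x => j * x) ⊆ E) with hJin
  set Jout := J.filter (fun j => ¬ F.image (fun x => j * x) ⊆ E) with hJout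
  have hsplit : ∑ j ∈ J, Real.log ((trajectory (S j) (X : Set A)).ncard : ℝ) =
      ∑ j ∈ Jin, Real.log ((trajectory (S j) (X : Set A)).ncard : ℝ) +
      ∑ j ∈ Jout, Real.log ((trajectory (S j) (X : Set A)).ncard : ℝ) :=
    (Finset.sum_filter_add_sum_filter_not _ _ _).symm
  have hin : ∑ j ∈ Jin, Real.log ((trajectory (S j) (X : Set A)).ncard : ℝ) ≤
      E.card * Real.log ((trajectory F (X : Set A)).ncard : ℝ) := by
    have h1 : ∀ j ∈ Jin, Real.log ((trajectory (S j) (X : Set A)).ncard : ℝ) =
        Real.log ((trajectory F (X : Set A)).ncard : ℝ) := by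
      intro j hj
      rw [hJin, Finset.mem_filter] at hj
      have : S j = F.image (fun x => j * x) := by
        ext e
        rw [hS, Finset.mem_filter, Finset.mem_image]
        constructor
        · rintro ⟨_, h⟩
          exact ⟨_, h, by simp⟩
        · rintro ⟨f, hf, rfl⟩
          exact ⟨hj.2 (Finset.mem_image_of_mem _ hf), by simpa using hf⟩
      rw [this, ncard_trajectory_smul]
    rw [Finset.sum_congr rfl h1, Finset.sum_const, nsmul_eq_mul]
    apply mul_le_mul_of_nonneg_right _ (hlog0 F)
    have h2 : Jin.card ≤ E.card := by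
      obtain ⟨f₀, hf₀⟩ := hF
      apply Finset.card_le_card_of_injOn (fun j => j * f₀)
      · intro j hj
        rw [Finset.mem_coe, hJin, Finset.mem_filter] at hj
        exact hj.2 (Finset.mem_image_of_mem _ hf₀)
      · intro a _ b _ h
        exact mul_right_cancel h
    exact_mod_cast h2
  have hout : ∑ j ∈ Jout, Real.log ((trajectory (S j) (X : Set A)).ncard : ℝ) ≤
      (Jout.card : ℝ) * (F.card * Real.log (X.card : ℝ)) := by
    rw [← nsmul_eq_mul]
    apply Finset.sum_le_card_nsmul
    intro j _
    refine (hlogle _).trans ?_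
    apply mul_le_mul_of_nonneg_right _ hlogX
    have h2 : (S j).card ≤ F.card := by
      apply Finset.card_le_card_of_injOn (fun e => j⁻¹ * e)
      · intro e he
        rw [Finset.mem_coe, hS, Finset.mem_filter] at he
        exact he.2
      · intro a _ b _ h
        exact mul_left_cancel h
    exact_mod_cast h2
  have hfin : ∀ g : G,
      (symmDiff ((fun x => x * g) '' (E : Set G)) (E : Set G)).Finite := by
    intro g
    have h1 : ((fun x => x * g) '' (E : Set G)).Finite := (Finset.finite_toSet E).image _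
    exact (h1.union (Finset.finite_toSet E)).subset (by
      intro x hx
      rcases hx with hx | hx
      · exact Or.inl hx.1
      · exact Or.inr hx.1)
  have hJoutcard : (Jout.card : ℝ) ≤ ∑ f ∈ F, ∑ f' ∈ F,
      ((symmDiff ((fun x => x * (f'⁻¹ * f)) '' (E : Set G)) (E : Set G)).ncard : ℝ) := by
    have hsub : Jout ⊆ F.biUnion (fun f => F.biUnion (fun f' =>
        ((hfin (f'⁻¹ * f)).toFinset).image (fun e => e * f⁻¹))) := by
      intro j hj
      rw [hJout, Finset.mem_filter, hJ, Finset.mem_image₂] at hj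
      obtain ⟨⟨e, he, f, hf, rfl⟩, h2⟩ := hj
      rw [Finset.not_subset] at h2
      obtain ⟨x, hx, hxE⟩ := h2
      rw [Finset.mem_image] at hx
      obtain ⟨f', hf', rfl⟩ := hx
      rw [Finset.mem_biUnion]
      refine ⟨f, hf, ?_⟩
      rw [Finset.mem_biUnion]
      refine ⟨f', hf', ?_⟩
      rw [Finset.mem_image]
      refine ⟨e, ?_, rfl⟩
      rw [Set.Finite.mem_toFinset]
      right
      refine ⟨he, ?_⟩
      rintro ⟨e', he', h3⟩
      apply hxE
      have : e * f⁻¹ * f' = e' := by
        simp only at h3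
        rw [← h3]
        group
      rw [this]
      exact he'
    have h1 := Finset.card_le_card hsub
    have h2 : (F.biUnion (fun f => F.biUnion (fun f' =>
        ((hfin (f'⁻¹ * f)).toFinset).image (fun e => e * f⁻¹)))).card ≤
        ∑ f ∈ F, ∑ f' ∈ F,
        (symmDiff ((fun x => x * (f'⁻¹ * f)) '' (E : Set G)) (E : Set G)).ncard := by
      refine Finset.card_biUnion_le.trans (Finset.sum_le_sum ?_)
      intro f _
      refine Finset.card_biUnion_le.trans (Finset.sum_le_sum ?_)
      intro f' _
      refine Finset.card_image_le.trans ?_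
      rw [Set.ncard_eq_toFinset_card _ (hfin _)]
    exact_mod_cast h1.trans h2
  have hmain : (F.card : ℝ) * Real.log ((trajectory E (X : Set A)).ncard : ℝ) ≤
      E.card * Real.log ((trajectory F (X : Set A)).ncard : ℝ) +
      (∑ f ∈ F, ∑ f' ∈ F,
      ((symmDiff ((fun x => x * (f'⁻¹ * f)) '' (E : Set G)) (E : Set G)).ncard : ℝ)) *
        (F.card * Real.log (X.card : ℝ)) := by
    refine hlog.trans ?_
    rw [hsplit]
    refine (add_le_add hin hout).trans ?_
    gcongr
  -- divide by |E| |F|
  have hdiv : ∑ f ∈ F, ∑ f' ∈ F,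
        ((symmDiff ((fun x => x * (f'⁻¹ * f)) '' (E : Set G)) (E : Set G)).ncard : ℝ) /
          (E.card : ℝ) = (∑ f ∈ F, ∑ f' ∈ F,
      ((symmDiff ((fun x => x * (f'⁻¹ * f)) '' (E : Set G)) (E : Set G)).ncard : ℝ)) /
        (E.card : ℝ) := by
    rw [Finset.sum_div]
    refine Finset.sum_congr rfl ?_
    intro f _
    rw [Finset.sum_div]
  rw [hdiv]
  set D := ∑ f ∈ F, ∑ f' ∈ F,
      ((symmDiff ((fun x => x * (f'⁻¹ * f)) '' (E : Set G)) (E : Set G)).ncard : ℝ)
  rw [div_add' _ _ _ hFc.ne', div_le_div_iff₀ hEc hFc]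
  have : (Real.log ((trajectory F (X : Set A)).ncard : ℝ) +
      Real.log (X.card : ℝ) * (D / (E.card : ℝ)) * (F.card : ℝ)) * (E.card : ℝ) =
      E.card * Real.log ((trajectory F (X : Set A)).ncard : ℝ) +
      D * (F.card * Real.log (X.card : ℝ)) := by
    field_simp
  rw [this, mul_comm]
  exact hmain

end Aux

/-- The infimum of `log |T_F(α, X)| / |F|` over all non-empty finite `F ⊆ G`. -/
noncomputable def rate (G : Type*) {A : Type*} [Group G] [AddCommGroup A] [DistribMulAction G A]
    (X : Set A) : ℝ :=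
  ⨅ F : {F : Finset G // F.Nonempty},
    Real.log ((trajectory (F : Finset G) X).ncard : ℝ) / ((F : Finset G).card : ℝ)

theorem bddBelow_rate (X : Set A) :
    BddBelow (Set.range (fun F : {F : Finset G // F.Nonempty} =>
      Real.log ((trajectory (F : Finset G) X).ncard : ℝ) / ((F : Finset G).card : ℝ))) := by
  refine ⟨0, ?_⟩
  rintro _ ⟨F, rfl⟩
  exact div_nonneg (Real.log_natCast_nonneg _) (Nat.cast_nonneg _)

theorem rate_le (X : Set A) (F : Finset G) (hF : F.Nonempty) :
    rate G X ≤ Real.log ((trajectory F X).ncard : ℝ) / (F.card : ℝ) :=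
  ciInf_le (bddBelow_rate X) ⟨F, hF⟩

theorem tendsto_rate {ι : Type*} [Preorder ι] (F : ι → Finset G) (hF : IsRightFolner F)
    (X : Set A) (hXf : X.Finite) (hX : X.Nonempty) :
    Tendsto (fun i => Real.log ((trajectory (F i) X).ncard : ℝ) / ((F i).card : ℝ)) atTop
      (𝓝 (rate G X)) := by
  classical
  obtain ⟨X', rfl⟩ : ∃ X' : Finset A, (X' : Set A) = X := ⟨hXf.toFinset, by simp⟩
  have hX' : X'.Nonempty := by simpa using hX
  rw [tendsto_order]
  constructor
  · intro a ha
    exact Eventually.of_forall fun i => lt_of_lt_of_le ha (rate_le _ _ (hF.nonempty i))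
  · intro a ha
    -- choose a good finite set
    obtain ⟨F₀, hF₀⟩ : ∃ F₀ : {F : Finset G // F.Nonempty},
        Real.log ((trajectory (F₀ : Finset G) (X' : Set A)).ncard : ℝ) /
          ((F₀ : Finset G).card : ℝ) < a := by
      have : Nonempty {F : Finset G // F.Nonempty} := ⟨⟨{1}, Finset.singleton_nonempty _⟩⟩
      exact exists_lt_of_ciInf_lt ha
    have hlim : Tendsto (fun i =>
        Real.log ((trajectory (F₀ : Finset G) (X' : Set A)).ncard : ℝ) / ((F₀ : Finset G).card : ℝ) +
        Real.log (X'.card : ℝ) * ∑ f ∈ (F₀ : Finset G), ∑ f' ∈ (F₀ : Finset G),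
        ((symmDiff ((fun x => x * (f'⁻¹ * f)) '' (F i : Set G)) (F i : Set G)).ncard : ℝ) /
          ((F i).card : ℝ)) atTop (𝓝
        (Real.log ((trajectory (F₀ : Finset G) (X' : Set A)).ncard : ℝ) / ((F₀ : Finset G).card : ℝ) +
        Real.log (X'.card : ℝ) * ∑ f ∈ (F₀ : Finset G), ∑ f' ∈ (F₀ : Finset G), (0 : ℝ))) := by
      refine Tendsto.add tendsto_const_nhds (Tendsto.mul tendsto_const_nhds ?_)
      refine tendsto_finsetSum _ fun f _ => tendsto_finsetSum _ fun f' _ => ?_
      exact hF.tendsto _
    simp only [Finset.sum_const_zero, mul_zero, add_zero] at hlim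
    have hev := (tendsto_order.1 hlim).2 a hF₀
    filter_upwards [hev] with i hi
    exact lt_of_le_of_lt (key_estimate X' hX' (F i) F₀ (hF.nonempty i) F₀.2) hi

theorem Halg_eq_rate {ι : Type*} [Preorder ι] [IsDirectedOrder ι] [Nonempty ι]
    (F : ι → Finset G) (hF : IsRightFolner F)
    (X : Set A) (hXf : X.Finite) (hX : X.Nonempty) : Halg F X = rate G X :=
  (tendsto_rate F hF X hXf hX).limUnder_eq

theorem rate_le_rate_subgroup (H : Subgroup G) (X : Set A) : rate G X ≤ rate H X := by
  classical
  unfold rate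
  have : Nonempty {F : Finset H // F.Nonempty} := ⟨⟨{1}, Finset.singleton_nonempty _⟩⟩
  apply le_ciInf
  rintro ⟨F, hF⟩
  have h1 := rate_le (G := G) X (F.map (Function.Embedding.subtype _)) (hF.map)
  have h2 : trajectory (F.map (Function.Embedding.subtype _)) X = trajectory F X := by
    ext a
    constructor
    · rintro ⟨x, hx, rfl⟩
      refine ⟨fun h => x h, ?_, ?_⟩
      · intro h hh
        exact hx _ (Finset.mem_map_of_mem _ hh)
      · rw [Finset.sum_map]
        rfl
    · rintro ⟨x, hx, rfl⟩
      refine ⟨fun g => if hg : g ∈ H then x ⟨g, hg⟩ else 0, ?_, ?_⟩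
      · intro g hg
        rw [Finset.mem_map] at hg
        obtain ⟨h, hh, rfl⟩ := hg
        have := hx h hh
        simpa using this
      · rw [Finset.sum_map]
        refine Finset.sum_congr rfl ?_
        intro h _
        simp [Subgroup.smul_def]
  rw [h2, Finset.card_map] at h1
  exact h1

/-- **Main theorem.** Let `G` be a group acting by automorphisms on an abelian group `A`, let
`H` be a subgroup of `G`, let `F` be a right Følner net of `G` and `F'` a right Følner net of `H`.
Then the limits defining `H_alg` exist along both nets for every non-empty finite `X ⊆ A`,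
`h_alg(α) ≤ h_alg(α↾H)` and `ent(α) ≤ ent(α↾H)`. -/
theorem result {G A : Type*} [Group G] [AddCommGroup A] [DistribMulAction G A] (H : Subgroup G)
    {ι κ : Type*} [Preorder ι] [IsDirectedOrder ι] [Nonempty ι]
    [Preorder κ] [IsDirectedOrder κ] [Nonempty κ]
    (F : ι → Finset G) (hF : IsRightFolner F) (F' : κ → Finset H) (hF' : IsRightFolner F') :
    (∀ X : Set A, X.Finite → X.Nonempty →
      Tendsto (fun i => Real.log ((trajectory (F i) X).ncard : ℝ) / ((F i).card : ℝ)) atTop
        (𝓝 (Halg F X)) ∧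
      Tendsto (fun i => Real.log ((trajectory (F' i) X).ncard : ℝ) / ((F' i).card : ℝ)) atTop
        (𝓝 (Halg F' X))) ∧
    halg A F ≤ halg A F' ∧ ent A F ≤ ent A F' := by
  refine ⟨?_, ?_, ?_⟩
  · intro X hXf hX
    rw [Halg_eq_rate F hF X hXf hX, Halg_eq_rate F' hF' X hXf hX]
    exact ⟨tendsto_rate F hF X hXf hX, tendsto_rate F' hF' X hXf hX⟩
  · refine iSup₂_le ?_
    intro X hX
    refine le_iSup₂_of_le X hX ?_
    rw [Halg_eq_rate F hF X hX.1 hX.2, Halg_eq_rate F' hF' X hX.1 hX.2]
    exact_mod_cast rate_le_rate_subgroup H X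
  · refine iSup₂_le ?_
    intro B hB
    refine le_iSup₂_of_le B hB ?_
    have hne : (B : Set A).Nonempty := ⟨0, B.zero_mem⟩
    rw [Halg_eq_rate F hF _ hB hne, Halg_eq_rate F' hF' _ hB hne]
    exact_mod_cast rate_le_rate_subgroup H (B : Set A)

end Entropy

end Pool.Agent.Results.MP_df8e9b_al.Restriction
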